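import Mathlib

/-!
The abstract counting argument (of Lovász type) behind the reconstruction theorem.
-/

set_option autoImplicit false

namespace Pool.Agent.Recon

open Finset Classical

/-- Inclusion-exclusion: the alternating sum over subsets `S` of `A₁` of the number of `α ∈ Y` with
`S ⊆ T α` vanishes when every `T α ⊆ A₁` is nonempty. -/
lemma alternating_zero {A X : Type*} (Y : Finset X) (A₁ : Finset A) (T : X → Finset A)
    (hT : ∀ α ∈ Y, T α ⊆ A₁) (hne : ∀ α ∈ Y, (T α).Nonempty) :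
    ∑ S ∈ A₁.powerset, (-1 : ℤ) ^ S.card * ((Y.filter (fun α => S ⊆ T α)).card : ℤ) = 0 := by
  have h1 : ∀ S ∈ A₁.powerset, (-1 : ℤ) ^ S.card * ((Y.filter (fun α => S ⊆ T α)).card : ℤ) =
      ∑ α ∈ Y, if S ⊆ T α then (-1 : ℤ) ^ S.card else 0 := by
    intro S _
    rw [card_filter]
    push_cast
    rw [mul_sum]
    refine sum_congr rfl (fun α _ => ?_)
    split_ifs <;> simp
  rw [sum_congr rfl h1, sum_comm]
  apply sum_eq_zero
  intro α hα
  rw [← sum_filter]
  have h2 : A₁.powerset.filter (fun S => S ⊆ T α) = (T α).powerset := by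
    ext S
    simp only [mem_filter, mem_powerset]
    exact ⟨fun h => h.2, fun h => ⟨h.trans (hT α hα), h⟩⟩
  rw [h2, sum_powerset_neg_one_pow_card, if_neg (hne α hα).ne_empty]

/-- If two families agree on proper subsets, they agree on the full set. -/
lemma full_eq {A X X' : Type*} (Y : Finset X) (Y' : Finset X') (A₁ : Finset A)
    (T : X → Finset A) (T' : X' → Finset A)
    (hT : ∀ α ∈ Y, T α ⊆ A₁) (hne : ∀ α ∈ Y, (T α).Nonempty)
    (hT' : ∀ α ∈ Y', T' α ⊆ A₁) (hne' : ∀ α ∈ Y', (T' α).Nonempty)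
    (heq : ∀ S ⊆ A₁, S.card < A₁.card →
      (Y.filter (fun α => S ⊆ T α)).card = (Y'.filter (fun α => S ⊆ T' α)).card) :
    (Y.filter (fun α => A₁ ⊆ T α)).card = (Y'.filter (fun α => A₁ ⊆ T' α)).card := by
  have h1 := alternating_zero Y A₁ T hT hne
  have h2 := alternating_zero Y' A₁ T' hT' hne'
  rw [← sum_erase_add _ _ (mem_powerset_self A₁)] at h1 h2
  have h3 : ∑ S ∈ A₁.powerset.erase A₁, (-1 : ℤ) ^ S.card *
        ((Y.filter (fun α => S ⊆ T α)).card : ℤ) =
      ∑ S ∈ A₁.powerset.erase A₁, (-1 : ℤ) ^ S.card *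
        ((Y'.filter (fun α => S ⊆ T' α)).card : ℤ) := by
    refine sum_congr rfl (fun S hS => ?_)
    rw [mem_erase, mem_powerset] at hS
    rw [heq S hS.2 (card_lt_card (hS.2.ssubset_of_ne hS.1))]
  rw [h3] at h1
  have h4 : (-1 : ℤ) ^ A₁.card * ((Y.filter (fun α => A₁ ⊆ T α)).card : ℤ) =
      (-1 : ℤ) ^ A₁.card * ((Y'.filter (fun α => A₁ ⊆ T' α)).card : ℤ) := by linarith
  have h5 := mul_left_cancel₀ (pow_ne_zero _ (by norm_num : (-1 : ℤ) ≠ 0)) h4
  exact_mod_cast h5

/-- Counting: if every fibre of `a` over `A₁` has `t` elements and `R ⊆ A₁`, then the number of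
`v` with `a v ∈ A₁ \ R` is `t * (|A₁| - |R|)`. -/
lemma card_fibre {V A : Type*} [Fintype V] (a : V → A) (t : ℕ) (A₁ R : Finset A) (hR : R ⊆ A₁)
    (hfib : ∀ c ∈ A₁, (univ.filter (fun v => a v = c)).card = t) :
    (univ.filter (fun v => a v ∈ A₁ ∧ a v ∉ R)).card = t * (A₁.card - R.card) := by
  have h1 : univ.filter (fun v => a v ∈ A₁ ∧ a v ∉ R) =
      (A₁ \ R).biUnion (fun c => univ.filter (fun v => a v = c)) := by
    ext v
    simp only [mem_filter, mem_univ, true_and, mem_biUnion, mem_sdiff]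
    constructor
    · intro h
      exact ⟨a v, h, rfl⟩
    · rintro ⟨c, hc, rfl⟩
      exact hc
  rw [h1, card_biUnion]
  · rw [sum_congr rfl (fun c hc => hfib c (mem_sdiff.mp hc).1), sum_const,
      card_sdiff_of_subset hR, smul_eq_mul, mul_comm]
  · intro c _ d _ hcd
    rw [Function.onFun, Finset.disjoint_left]
    intro v hv hv'
    simp only [mem_filter, mem_univ, true_and] at hv hv'
    exact hcd (hv.symm.trans hv')

theorem abstract_recon {A B V : Type*} [Fintype A] [Fintype B] [Fintype V]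
    (a : V → A) (b : V → B) (mG : A → ℕ) (mH : B → ℕ)
    (ha : ∀ c, (univ.filter (fun v => a v = c)).card = mG c)
    (hb : ∀ d, (univ.filter (fun v => b v = d)).card = mH d)
    (hab : ∀ v, mG (a v) = mH (b v))
    (hposA : ∀ c, 1 ≤ mG c) (hposB : ∀ d, 1 ≤ mH d)
    (ΓA : Set (A ≃ A)) (Γ : Set (A ≃ B))
    (h1 : Equiv.refl A ∈ ΓA)
    (h2 : ∀ α ∈ ΓA, ∀ γ ∈ Γ, α.trans γ ∈ Γ)
    (h3 : ∀ γ ∈ Γ, ∀ γ' ∈ Γ, γ.trans γ'.symm ∈ ΓA)
    (g : V → A ≃ B) (hg : ∀ v, 2 ≤ mG (a v) → g v ∈ Γ)
    (hgm : ∀ v, 2 ≤ mG (a v) → ∀ c, mG c - (if a v = c then 1 else 0) =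
      mH (g v c) - (if b v = g v c then 1 else 0))
    (hcard : Fintype.card A + 2 ≤ Fintype.card V)
    (O : Set A) (hO : ∀ α ∈ ΓA, ∀ c ∈ O, α c ∈ O) (s : ℕ) (hs : 1 ≤ s)
    (hlt : (univ.filter (fun c => c ∈ O ∧ mG c = s)).card <
      (univ.filter (fun c => c ∈ O ∧ mG c = s + 1)).card) :
    ∃ γ ∈ Γ, ∀ c, mH (γ c) = mG c := by
  -- surjectivity of `a`, `b`
  have hasurj : ∀ c, ∃ v, a v = c := by
    intro c
    have h4 : 0 < (univ.filter (fun v => a v = c)).card := by
      rw [ha]; exact hposA c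
    obtain ⟨v, hv⟩ := card_pos.mp h4
    exact ⟨v, by simpa using hv⟩
  have hbsurj : ∀ d, ∃ v, b v = d := by
    intro d
    have h4 : 0 < (univ.filter (fun v => b v = d)).card := by
      rw [hb]; exact hposB d
    obtain ⟨v, hv⟩ := card_pos.mp h4
    exact ⟨v, by simpa using hv⟩
  -- the transported set
  obtain ⟨c₁, hc₁⟩ : (univ.filter (fun c => c ∈ O ∧ mG c = s + 1)).Nonempty :=
    card_pos.mp (by omega)
  simp only [mem_filter, mem_univ, true_and] at hc₁
  obtain ⟨v₁, hv₁⟩ := hasurj c₁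
  have hv₁2 : 2 ≤ mG (a v₁) := by rw [hv₁, hc₁.2]; omega
  set OB : Set B := {d | (g v₁).symm d ∈ O} with hOB
  have hOBiff : ∀ γ ∈ Γ, ∀ c, γ c ∈ OB ↔ c ∈ O := by
    intro γ hγ c
    constructor
    · intro h
      have h4 := h3 (g v₁) (hg v₁ hv₁2) γ hγ
      have h5 := hO _ h4 _ h
      simpa using h5
    · intro h
      have h4 := h3 γ hγ (g v₁) (hg v₁ hv₁2)
      exact hO _ h4 _ h
  -- membership in `O` is preserved
  have hsumO : ∀ v, 2 ≤ mG (a v) →
      (∑ c ∈ univ.filter (fun c => c ∈ O), mG c) + (if b v ∈ OB then 1 else 0) =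
      (∑ d ∈ univ.filter (fun d => d ∈ OB), mH d) + (if a v ∈ O then 1 else 0) := by
    intro v hv
    have h4 : ∀ c, mG c + (if b v = g v c then 1 else 0) =
        mH (g v c) + (if a v = c then 1 else 0) := by
      intro c
      have h5 := hgm v hv c
      have h6 := hposA c
      have h7 := hposB (g v c)
      split_ifs at h5 ⊢ <;> omega
    have h5 : ∑ c ∈ univ.filter (fun c => c ∈ O), (mG c + (if b v = g v c then 1 else 0)) =
        ∑ c ∈ univ.filter (fun c => c ∈ O), (mH (g v c) + (if a v = c then 1 else 0)) :=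
      sum_congr rfl (fun c _ => h4 c)
    rw [sum_add_distrib, sum_add_distrib] at h5
    have h6 : ∑ c ∈ univ.filter (fun c => c ∈ O), (if b v = g v c then 1 else 0) =
        (if b v ∈ OB then 1 else 0) := by
      have h7 : ∀ c, (b v = g v c) ↔ (c = (g v).symm (b v)) := by
        intro c
        constructor
        · intro h; rw [h]; simp
        · intro h; rw [h]; simp
      simp only [h7, sum_ite_eq', mem_filter, mem_univ, true_and]
      have h8 : (g v).symm (b v) ∈ O ↔ b v ∈ OB := by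
        rw [← hOBiff (g v) (hg v hv), Equiv.apply_symm_apply]
      simp only [h8]
    have h7 : ∑ c ∈ univ.filter (fun c => c ∈ O), (if a v = c then 1 else 0) =
        (if a v ∈ O then 1 else 0) := by
      simp only [sum_ite_eq, mem_filter, mem_univ, true_and]
    have h8 : ∑ c ∈ univ.filter (fun c => c ∈ O), mH (g v c) =
        ∑ d ∈ univ.filter (fun d => d ∈ OB), mH d := by
      apply sum_bij (fun c _ => g v c)
      · intro c hc
        simp only [mem_filter, mem_univ, true_and] at hc ⊢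
        exact (hOBiff (g v) (hg v hv) c).mpr hc
      · intro c _ d _ h
        exact (g v).injective h
      · intro d hd
        simp only [mem_filter, mem_univ, true_and] at hd
        refine ⟨(g v).symm d, ?_, by simp⟩
        simp only [mem_filter, mem_univ, true_and]
        rw [← hOBiff (g v) (hg v hv), Equiv.apply_symm_apply]
        exact hd
      · intro c _
        rfl
    rw [h6, h7, h8] at h5
    exact h5
  have hmem : ∀ v, 2 ≤ mG (a v) → (a v ∈ O ↔ b v ∈ OB) := by
    intro v₀ hv₀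
    -- another class of size at least two after deletion
    obtain ⟨c, hc⟩ : ∃ c, 2 ≤ mG c - (if a v₀ = c then 1 else 0) := by
      by_contra hcon
      push Not at hcon
      have h4 : ∑ c, mG c ≤ ∑ c : A, (1 + (if a v₀ = c then 1 else 0)) := by
        refine sum_le_sum (fun c _ => ?_)
        have := hcon c
        split_ifs at this ⊢ <;> omega
      have h5 : ∑ c, mG c = Fintype.card V := by
        have h6 : Fintype.card V = ∑ c : A, (univ.filter (fun v => a v = c)).card := by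
          rw [← card_univ]
          exact card_eq_sum_card_fiberwise (fun v _ => mem_univ (a v))
        rw [h6]
        exact sum_congr rfl (fun c _ => (ha c).symm)
      rw [h5, sum_add_distrib] at h4
      simp only [sum_const, card_univ, smul_eq_mul, mul_one, sum_ite_eq, mem_univ, if_true] at h4
      omega
    obtain ⟨u, hu⟩ := hasurj c
    obtain ⟨u', hu'⟩ := hbsurj (g v₀ c)
    have hu2 : 2 ≤ mG (a u) := by
      rw [hu]; exact hc.trans (Nat.sub_le _ _)
    have hu'2 : 2 ≤ mG (a u') := by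
      rw [hab, hu']
      rw [hgm v₀ hv₀ c] at hc
      exact hc.trans (Nat.sub_le _ _)
    have h4 : b u' ∈ OB ↔ a u ∈ O := by
      rw [hu, hu']
      exact hOBiff (g v₀) (hg v₀ hv₀) c
    have e0 := hsumO v₀ hv₀
    have e1 := hsumO u hu2
    have e2 := hsumO u' hu'2
    by_cases p0 : a v₀ ∈ O <;> by_cases q0 : b v₀ ∈ OB <;>
      by_cases p1 : a u ∈ O <;> by_cases q1 : b u ∈ OB <;>
      by_cases p2 : a u' ∈ O <;> by_cases q2 : b u' ∈ OB <;>
      simp only [p0, q0, p1, q1, p2, q2, if_true, if_false, iff_true, iff_false, true_iff,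
        false_iff, not_true_eq_false, not_false_eq_true] at e0 e1 e2 h4 ⊢ <;>
      omega
  -- the relevant sets
  set A₁ : Finset A := univ.filter (fun c => c ∈ O ∧ mG c = s + 1) with hA₁
  set A₀ : Finset A := univ.filter (fun c => c ∈ O ∧ mG c = s) with hA₀
  set B₁ : Finset B := univ.filter (fun d => d ∈ OB ∧ mH d = s + 1) with hB₁
  set B₀ : Finset B := univ.filter (fun d => d ∈ OB ∧ mH d = s) with hB₀
  have mA₁ : ∀ c, c ∈ A₁ ↔ (c ∈ O ∧ mG c = s + 1) := fun c => by simp [hA₁]
  have mA₀ : ∀ c, c ∈ A₀ ↔ (c ∈ O ∧ mG c = s) := fun c => by simp [hA₀]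
  have mB₁ : ∀ c, c ∈ B₁ ↔ (c ∈ OB ∧ mH c = s + 1) := fun c => by simp [hB₁]
  have mB₀ : ∀ c, c ∈ B₀ ↔ (c ∈ OB ∧ mH c = s) := fun c => by simp [hB₀]
  have hV₁ : ∀ v, a v ∈ A₁ ↔ b v ∈ B₁ := by
    intro v
    rw [mA₁, mB₁, ← hab]
    constructor
    · rintro ⟨h4, h5⟩
      exact ⟨(hmem v (by omega)).mp h4, h5⟩
    · rintro ⟨h4, h5⟩
      exact ⟨(hmem v (by omega)).mpr h4, h5⟩
  have hfibA : ∀ c ∈ A₁, (univ.filter (fun v => a v = c)).card = s + 1 := by
    intro c hc
    rw [ha]; exact ((mA₁ c).mp hc).2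
  have hfibB : ∀ c ∈ B₁, (univ.filter (fun v => b v = c)).card = s + 1 := by
    intro c hc
    rw [hb]; exact ((mB₁ c).mp hc).2
  have hcardAB : A₁.card = B₁.card := by
    have h4 := card_fibre a (s + 1) A₁ ∅ (empty_subset _) hfibA
    have h5 := card_fibre b (s + 1) B₁ ∅ (empty_subset _) hfibB
    simp only [notMem_empty, not_false_eq_true, and_true, card_empty, Nat.sub_zero] at h4 h5
    have h6 : (univ.filter (fun v => a v ∈ A₁)) = (univ.filter (fun v => b v ∈ B₁)) := by
      ext v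
      simp only [mem_filter, mem_univ, true_and]
      exact hV₁ v
    rw [h6, h5] at h4
    exact (Nat.eq_of_mul_eq_mul_left (Nat.succ_pos s) h4).symm
  -- properties of `g v` for `v` with `a v ∈ A₁`
  have hgv : ∀ v, a v ∈ A₁ → (∀ c, (c ∈ A₁ ∨ c ∈ A₀) ↔ (g v c ∈ B₁ ∨ g v c ∈ B₀)) ∧
      (∀ c, ¬ (c ∈ A₁ ∨ c ∈ A₀) → mH (g v c) = mG c) ∧
      (∀ c, (c ∈ A₁ ∧ a v ≠ c) ↔ (g v c ∈ B₁ ∧ b v ≠ g v c)) := by
    intro v hv
    have hv' := (mA₁ _).mp hv
    have hbv := (mB₁ _).mp ((hV₁ v).mp hv)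
    have hv2 : 2 ≤ mG (a v) := by omega
    have hOc := hOBiff (g v) (hg v hv2)
    have hm := hgm v hv2
    have key1 : ∀ c, (c ∈ A₁ ∨ c ∈ A₀) ↔ (g v c ∈ B₁ ∨ g v c ∈ B₀) := by
      intro c
      rw [mA₁, mA₀, mB₁, mB₀]
      simp only [hOc c]
      have h4 := hm c
      have e1 : a v = c → mG c = s + 1 := fun h => h ▸ hv'.2
      have e2 : b v = g v c → mH (g v c) = s + 1 := fun h => h ▸ hbv.2
      by_cases p : a v = c <;> by_cases q : b v = g v c <;>
        simp only [p, q, if_true, if_false] at h4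
      · have := e1 p; have := e2 q; tauto
      · have := e1 p
        constructor
        · rintro (h | h)
          · exact Or.inr ⟨h.1, by omega⟩
          · omega
        · rintro (h | h)
          · omega
          · exact Or.inl ⟨h.1, by omega⟩
      · have := e2 q
        constructor
        · rintro (h | h)
          · omega
          · exact Or.inl ⟨h.1, by omega⟩
        · rintro (h | h)
          · exact Or.inr ⟨h.1, by omega⟩
          · omega
      · simp only [Nat.sub_zero] at h4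
        rw [h4]
    refine ⟨key1, ?_, ?_⟩
    · intro c hc
      have p : a v ≠ c := fun h => hc (Or.inl (h ▸ hv))
      have q : b v ≠ g v c := fun h => hc ((key1 c).mpr (Or.inl (h ▸ (hV₁ v).mp hv)))
      have h4 := hm c
      simp only [p, q, if_false, Nat.sub_zero] at h4
      exact h4.symm
    · intro c
      rw [mA₁, mB₁]
      simp only [hOc c]
      have h4 := hm c
      have e1 : a v = c → mG c = s + 1 := fun h => h ▸ hv'.2
      have e2 : b v = g v c → mH (g v c) = s + 1 := fun h => h ▸ hbv.2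
      by_cases p : a v = c <;> by_cases q : b v = g v c <;>
        simp only [p, q, if_true, if_false] at h4
      · simp [p, q]
      · have := e1 p
        constructor
        · rintro ⟨_, h⟩; exact absurd p h
        · rintro ⟨h, _⟩; omega
      · have := e2 q
        constructor
        · rintro ⟨h, _⟩; omega
        · rintro ⟨_, h⟩; exact absurd q h
      · simp only [Nat.sub_zero] at h4
        rw [h4]
        tauto
  -- the two finite sets of maps
  set YA : Finset (A ≃ A) := univ.filter (fun α => α ∈ ΓA ∧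
    (∀ c, (c ∈ A₁ ∨ c ∈ A₀) ↔ (α c ∈ A₁ ∨ α c ∈ A₀)) ∧
    (∀ c, ¬ (c ∈ A₁ ∨ c ∈ A₀) → mG (α c) = mG c)) with hYA
  set YB : Finset (A ≃ B) := univ.filter (fun γ => γ ∈ Γ ∧
    (∀ c, (c ∈ A₁ ∨ c ∈ A₀) ↔ (γ c ∈ B₁ ∨ γ c ∈ B₀)) ∧
    (∀ c, ¬ (c ∈ A₁ ∨ c ∈ A₀) → mH (γ c) = mG c)) with hYB
  have mYA : ∀ α, α ∈ YA ↔ (α ∈ ΓA ∧
    (∀ c, (c ∈ A₁ ∨ c ∈ A₀) ↔ (α c ∈ A₁ ∨ α c ∈ A₀)) ∧
    (∀ c, ¬ (c ∈ A₁ ∨ c ∈ A₀) → mG (α c) = mG c)) := fun α => by simp only [hYA, mem_filter, mem_univ, true_and]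
  have mYB : ∀ γ, γ ∈ YB ↔ (γ ∈ Γ ∧
    (∀ c, (c ∈ A₁ ∨ c ∈ A₀) ↔ (γ c ∈ B₁ ∨ γ c ∈ B₀)) ∧
    (∀ c, ¬ (c ∈ A₁ ∨ c ∈ A₀) → mH (γ c) = mG c)) := fun γ => by simp only [hYB, mem_filter, mem_univ, true_and]
  clear_value YA YB
  have hinjA : ∀ v, a v ∈ A₁ → ∀ S : Finset A,
      (YA.filter (fun α => ∀ c ∈ S, α c ∈ A₁ ∧ a v ≠ α c)).card =
      (YB.filter (fun γ => ∀ c ∈ S, γ c ∈ B₁ ∧ b v ≠ γ c)).card := by
    intro v hv S
    obtain ⟨k1, k2, k3⟩ := hgv v hv
    have hv' := (mA₁ _).mp hv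
    have hgvΓ : g v ∈ Γ := hg v (by omega)
    apply card_bij (fun α _ => α.trans (g v))
    · intro α hα
      rw [mem_filter, mYA] at hα
      rw [mem_filter, mYB]
      obtain ⟨⟨e1, e2, e3⟩, e4⟩ := hα
      refine ⟨⟨h2 α e1 (g v) hgvΓ, ?_, ?_⟩, ?_⟩
      · intro c
        rw [e2 c, k1 (α c)]
        rfl
      · intro c hc
        have hc' : ¬ (α c ∈ A₁ ∨ α c ∈ A₀) := fun h => hc ((e2 c).mpr h)
        rw [Equiv.trans_apply, k2 _ hc', e3 c hc]
      · intro c hc
        have := (k3 (α c)).mp (e4 c hc)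
        exact this
    · intro α _ β _ h
      ext c
      have := congrArg (fun e : A ≃ B => (g v).symm (e c)) h
      simpa using this
    · intro γ hγ
      rw [mem_filter, mYB] at hγ
      obtain ⟨⟨e1, e2, e3⟩, e4⟩ := hγ
      refine ⟨γ.trans (g v).symm, ?_, ?_⟩
      · rw [mem_filter, mYA]
        refine ⟨⟨h3 γ e1 (g v) hgvΓ, ?_, ?_⟩, ?_⟩
        · intro c
          rw [e2 c, k1 ((γ.trans (g v).symm) c)]
          simp
        · intro c hc
          have hc' : ¬ ((γ.trans (g v).symm) c ∈ A₁ ∨ (γ.trans (g v).symm) c ∈ A₀) := by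
            intro h
            apply hc
            rw [e2 c]
            have := (k1 _).mp h
            simpa using this
          have h5 := k2 _ hc'
          rw [← h5]
          simp only [Equiv.trans_apply, Equiv.apply_symm_apply]
          exact e3 c hc
        · intro c hc
          have := (k3 ((γ.trans (g v).symm) c)).mpr (by simpa using e4 c hc)
          exact this
      · ext c
        simp
  -- equality of the counts for proper subsets
  have hcount : ∀ S ⊆ A₁, S.card < A₁.card →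
      (YA.filter (fun α => ∀ c ∈ S, α c ∈ A₁)).card =
      (YB.filter (fun γ => ∀ c ∈ S, γ c ∈ B₁)).card := by
    intro S _ hScard
    have hL : ∑ v ∈ univ.filter (fun v => a v ∈ A₁),
        (YA.filter (fun α => ∀ c ∈ S, α c ∈ A₁ ∧ a v ≠ α c)).card =
        (YA.filter (fun α => ∀ c ∈ S, α c ∈ A₁)).card * ((s + 1) * (A₁.card - S.card)) := by
      have h4 : ∀ v, (YA.filter (fun α => ∀ c ∈ S, α c ∈ A₁ ∧ a v ≠ α c)).card =
          ∑ α ∈ YA.filter (fun α => ∀ c ∈ S, α c ∈ A₁), if a v ∉ S.image α then 1 else 0 := by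
        intro v
        rw [← card_filter, filter_filter]
        congr 1
        ext α
        simp only [mem_filter, mem_image, not_exists, not_and]
        constructor
        · rintro ⟨h0, h⟩
          exact ⟨h0, fun c hc => (h c hc).1, fun c hc hce => (h c hc).2 hce.symm⟩
        · rintro ⟨h0, h, h'⟩
          exact ⟨h0, fun c hc => ⟨h c hc, fun hce => h' c hc hce.symm⟩⟩
      rw [sum_congr rfl (fun v _ => h4 v), sum_comm]
      have h5 : ∀ α ∈ YA.filter (fun α => ∀ c ∈ S, α c ∈ A₁),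
          (∑ v ∈ univ.filter (fun v => a v ∈ A₁), if a v ∉ S.image α then 1 else 0) =
          (s + 1) * (A₁.card - S.card) := by
        intro α hα
        rw [mem_filter] at hα
        rw [← card_filter, filter_filter]
        have h6 : S.image α ⊆ A₁ := by
          intro d hd
          obtain ⟨c, hc, rfl⟩ := mem_image.mp hd
          exact hα.2 c hc
        rw [card_fibre a (s + 1) A₁ (S.image α) h6 hfibA, card_image_of_injective _ α.injective]
      rw [sum_congr rfl h5, sum_const, smul_eq_mul]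
    have hR : ∑ v ∈ univ.filter (fun v => a v ∈ A₁),
        (YB.filter (fun γ => ∀ c ∈ S, γ c ∈ B₁ ∧ b v ≠ γ c)).card =
        (YB.filter (fun γ => ∀ c ∈ S, γ c ∈ B₁)).card * ((s + 1) * (A₁.card - S.card)) := by
      have h4 : ∀ v, (YB.filter (fun γ => ∀ c ∈ S, γ c ∈ B₁ ∧ b v ≠ γ c)).card =
          ∑ γ ∈ YB.filter (fun γ => ∀ c ∈ S, γ c ∈ B₁), if b v ∉ S.image γ then 1 else 0 := by
        intro v
        rw [← card_filter, filter_filter]
        congr 1
        ext γ
        simp only [mem_filter, mem_image, not_exists, not_and]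
        constructor
        · rintro ⟨h0, h⟩
          exact ⟨h0, fun c hc => (h c hc).1, fun c hc hce => (h c hc).2 hce.symm⟩
        · rintro ⟨h0, h, h'⟩
          exact ⟨h0, fun c hc => ⟨h c hc, fun hce => h' c hc hce.symm⟩⟩
      rw [sum_congr rfl (fun v _ => h4 v), sum_comm]
      have h5 : ∀ γ ∈ YB.filter (fun γ => ∀ c ∈ S, γ c ∈ B₁),
          (∑ v ∈ univ.filter (fun v => a v ∈ A₁), if b v ∉ S.image γ then 1 else 0) =
          (s + 1) * (A₁.card - S.card) := by
        intro γ hγ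
        rw [mem_filter] at hγ
        rw [← card_filter, filter_filter]
        have h6 : S.image γ ⊆ B₁ := by
          intro d hd
          obtain ⟨c, hc, rfl⟩ := mem_image.mp hd
          exact hγ.2 c hc
        have h7 : (univ.filter (fun v => a v ∈ A₁ ∧ b v ∉ S.image γ)) =
            (univ.filter (fun v => b v ∈ B₁ ∧ b v ∉ S.image γ)) := by
          ext v
          simp only [mem_filter, mem_univ, true_and, hV₁ v]
        rw [h7, card_fibre b (s + 1) B₁ (S.image γ) h6 hfibB, card_image_of_injective _ γ.injective,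
          hcardAB]
      rw [sum_congr rfl h5, sum_const, smul_eq_mul]
    have hE : ∑ v ∈ univ.filter (fun v => a v ∈ A₁),
        (YA.filter (fun α => ∀ c ∈ S, α c ∈ A₁ ∧ a v ≠ α c)).card =
        ∑ v ∈ univ.filter (fun v => a v ∈ A₁),
        (YB.filter (fun γ => ∀ c ∈ S, γ c ∈ B₁ ∧ b v ≠ γ c)).card := by
      refine sum_congr rfl (fun v hv => ?_)
      rw [mem_filter] at hv
      exact hinjA v hv.2 S
    rw [hL, hR] at hE
    exact Nat.eq_of_mul_eq_mul_right (Nat.mul_pos (Nat.succ_pos s) (by omega)) hE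
  -- nonempty intersections
  have hneA : ∀ α ∈ YA, (A₁.filter (fun c => α c ∈ A₁)).Nonempty := by
    intro α hα
    rw [mYA] at hα
    by_contra hcon
    rw [not_nonempty_iff_eq_empty, filter_eq_empty_iff] at hcon
    have h4 : A₁.image α ⊆ A₀ := by
      intro d hd
      obtain ⟨c, hc, rfl⟩ := mem_image.mp hd
      rcases (hα.2.1 c).mp (Or.inl hc) with h | h
      · exact absurd h (hcon hc)
      · exact h
    have h5 := card_le_card h4
    rw [card_image_of_injective _ α.injective] at h5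
    omega
  have hcardB₀ : B₀.card = A₀.card := by
    -- through `g v₁`
    have hv₁A : a v₁ ∈ A₁ := (mA₁ _).mpr (by rw [hv₁]; exact hc₁)
    obtain ⟨k1, _, _⟩ := hgv v₁ hv₁A
    have h4 : (A₁ ∪ A₀).image (g v₁) = B₁ ∪ B₀ := by
      ext d
      simp only [mem_image, mem_union]
      constructor
      · rintro ⟨c, hc, rfl⟩
        exact (k1 c).mp hc
      · intro hd
        refine ⟨(g v₁).symm d, ?_, by simp⟩
        rw [k1]
        simpa using hd
    have h5 : (A₁ ∪ A₀).card = (B₁ ∪ B₀).card := by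
      rw [← h4, card_image_of_injective _ (g v₁).injective]
    rw [card_union_of_disjoint, card_union_of_disjoint] at h5
    · omega
    · rw [Finset.disjoint_left]
      intro d h6 h7
      rw [mB₁] at h6
      rw [mB₀] at h7
      omega
    · rw [Finset.disjoint_left]
      intro d h6 h7
      rw [mA₁] at h6
      rw [mA₀] at h7
      omega
  have hneB : ∀ γ ∈ YB, (A₁.filter (fun c => γ c ∈ B₁)).Nonempty := by
    intro γ hγ
    rw [mYB] at hγ
    by_contra hcon
    rw [not_nonempty_iff_eq_empty, filter_eq_empty_iff] at hcon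
    have h4 : A₁.image γ ⊆ B₀ := by
      intro d hd
      obtain ⟨c, hc, rfl⟩ := mem_image.mp hd
      rcases (hγ.2.1 c).mp (Or.inl hc) with h | h
      · exact absurd h (hcon hc)
      · exact h
    have h5 := card_le_card h4
    rw [card_image_of_injective _ γ.injective] at h5
    omega
  have hfull := full_eq YA YB A₁ (fun α => A₁.filter (fun c => α c ∈ A₁))
    (fun γ => A₁.filter (fun c => γ c ∈ B₁)) (fun _ _ => filter_subset _ _) hneA
    (fun _ _ => filter_subset _ _) hneB (by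
      intro S hS hScard
      have h4 := hcount S hS hScard
      have h5 : (YA.filter (fun α => S ⊆ A₁.filter (fun c => α c ∈ A₁))) =
          (YA.filter (fun α => ∀ c ∈ S, α c ∈ A₁)) := by
        ext α
        rw [mem_filter, mem_filter]
        constructor
        · rintro ⟨h, h'⟩
          exact ⟨h, fun c hc => (mem_filter.mp (h' hc)).2⟩
        · rintro ⟨h, h'⟩
          exact ⟨h, fun c hc => mem_filter.mpr ⟨hS hc, h' c hc⟩⟩
      have h6 : (YB.filter (fun γ => S ⊆ A₁.filter (fun c => γ c ∈ B₁))) =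
          (YB.filter (fun γ => ∀ c ∈ S, γ c ∈ B₁)) := by
        ext γ
        rw [mem_filter, mem_filter]
        constructor
        · rintro ⟨h, h'⟩
          exact ⟨h, fun c hc => (mem_filter.mp (h' hc)).2⟩
        · rintro ⟨h, h'⟩
          exact ⟨h, fun c hc => mem_filter.mpr ⟨hS hc, h' c hc⟩⟩
      rw [h5, h6]
      exact h4)
  have hrefl : Equiv.refl A ∈ YA.filter (fun α => A₁ ⊆ A₁.filter (fun c => α c ∈ A₁)) := by
    rw [mem_filter, mYA]
    refine ⟨⟨h1, fun c => Iff.rfl, fun c _ => rfl⟩, ?_⟩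
    intro c hc
    exact mem_filter.mpr ⟨hc, hc⟩
  have hpos : 0 < (YB.filter (fun γ => A₁ ⊆ A₁.filter (fun c => γ c ∈ B₁))).card := by
    rw [← hfull]
    exact card_pos.mpr ⟨_, hrefl⟩
  obtain ⟨γ, hγ⟩ := card_pos.mp hpos
  rw [mem_filter, mYB] at hγ
  obtain ⟨⟨e1, e2, e3⟩, e4⟩ := hγ
  have e5 : ∀ c ∈ A₁, γ c ∈ B₁ := fun c hc => (mem_filter.mp (e4 hc)).2
  have e6 : A₁.image γ = B₁ := by
    apply eq_of_subset_of_card_le
    · intro d hd
      obtain ⟨c, hc, rfl⟩ := mem_image.mp hd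
      exact e5 c hc
    · rw [card_image_of_injective _ γ.injective, hcardAB]
  refine ⟨γ, e1, fun c => ?_⟩
  by_cases hc : c ∈ A₁ ∨ c ∈ A₀
  · rcases hc with hc | hc
    · rw [((mB₁ _).mp (e5 c hc)).2, ((mA₁ _).mp hc).2]
    · have h4 : γ c ∈ B₀ := by
        rcases (e2 c).mp (Or.inr hc) with h | h
        · exfalso
          rw [← e6] at h
          obtain ⟨c', hc', hcc⟩ := mem_image.mp h
          rw [γ.injective hcc] at hc'
          have e7 := ((mA₁ _).mp hc').2
          have e8 := ((mA₀ _).mp hc).2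
          omega
        · exact h
      rw [((mB₀ _).mp h4).2, ((mA₀ _).mp hc).2]
  · exact e3 c hc

end Pool.Agent.Recon
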