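import Mathlib

/-!
Counting pairs of vertices by the size of the symmetric difference of their neighbourhoods.
-/

set_option autoImplicit false

namespace Pool.Agent.Recon

open Finset Classical

variable {V W : Type*} [Fintype V] [Fintype W]

/-- vertices distinguishing `u` and `v`. -/
noncomputable def dist2 (G : SimpleGraph V) (u v : V) : Finset V :=
  univ.filter (fun x => ¬ (G.Adj u x ↔ G.Adj v x))

/-- ordered pairs of distinct nonadjacent vertices. -/
noncomputable def nonadj (G : SimpleGraph V) : Finset (V × V) :=
  univ.filter (fun p => p.1 ≠ p.2 ∧ ¬ G.Adj p.1 p.2)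

/-- number of ordered pairs of distinct nonadjacent vertices distinguished by exactly `k`
vertices. -/
noncomputable def sCount (G : SimpleGraph V) (k : ℕ) : ℕ :=
  ((nonadj G).filter (fun p => (dist2 G p.1 p.2).card = k)).card

/-- the same count in the graph `G - w`. -/
noncomputable def sCountDel (G : SimpleGraph V) (w : V) (k : ℕ) : ℕ :=
  ((nonadj G).filter (fun p => p.1 ≠ w ∧ p.2 ≠ w ∧ ((dist2 G p.1 p.2).erase w).card = k)).card

lemma left_notMem_dist2 (G : SimpleGraph V) {u v : V} (h : ¬ G.Adj u v) : u ∉ dist2 G u v := by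
  simp only [dist2, mem_filter, mem_univ, true_and, not_not]
  constructor
  · intro h'; exact absurd h' (G.loopless.irrefl _)
  · intro h'; exact absurd h'.symm h

lemma right_notMem_dist2 (G : SimpleGraph V) {u v : V} (h : ¬ G.Adj u v) : v ∉ dist2 G u v := by
  simp only [dist2, mem_filter, mem_univ, true_and, not_not]
  constructor
  · intro h'; exact absurd h' h
  · intro h'; exact absurd h' (G.loopless.irrefl _)

lemma card_dist2_le (G : SimpleGraph V) {u v : V} (huv : u ≠ v) (h : ¬ G.Adj u v) :
    (dist2 G u v).card + 2 ≤ Fintype.card V := by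
  have h1 : (insert u (insert v (dist2 G u v))).card = (dist2 G u v).card + 2 := by
    rw [card_insert_of_notMem, card_insert_of_notMem (right_notMem_dist2 G h)]
    simp only [mem_insert, not_or]
    exact ⟨huv, left_notMem_dist2 G h⟩
  rw [← h1]
  exact card_le_univ _

/-- Double counting over the deleted vertex. -/
lemma sum_sCountDel (G : SimpleGraph V) (k : ℕ) :
    ∑ w, sCountDel G w k =
      (Fintype.card V - 2 - k) * sCount G k + (k + 1) * sCount G (k + 1) := by
  have h1 : ∀ w, sCountDel G w k = ∑ p ∈ nonadj G,
      if (p.1 ≠ w ∧ p.2 ≠ w ∧ ((dist2 G p.1 p.2).erase w).card = k) then 1 else 0 := by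
    intro w
    rw [sCountDel, card_filter]
  simp only [h1]
  rw [sum_comm]
  have h2 : ∀ p ∈ nonadj G, (∑ w, if (p.1 ≠ w ∧ p.2 ≠ w ∧ ((dist2 G p.1 p.2).erase w).card = k)
      then 1 else 0) =
      (if (dist2 G p.1 p.2).card = k then Fintype.card V - 2 - k else 0) +
      (if (dist2 G p.1 p.2).card = k + 1 then k + 1 else 0) := by
    rintro ⟨u, v⟩ hp
    simp only [nonadj, mem_filter, mem_univ, true_and] at hp
    obtain ⟨huv, hadj⟩ := hp
    rw [← card_filter]
    dsimp only
    set D := dist2 G u v with hD
    have hu : u ∉ D := left_notMem_dist2 G hadj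
    have hv : v ∉ D := right_notMem_dist2 G hadj
    by_cases hk : D.card = k
    · have h3 : (univ.filter (fun w => u ≠ w ∧ v ≠ w ∧ (D.erase w).card = k)) =
          univ \ (insert u (insert v D)) := by
        ext w
        simp only [mem_filter, mem_univ, true_and, mem_sdiff, mem_insert, not_or]
        constructor
        · rintro ⟨h4, h5, h6⟩
          refine ⟨h4.symm, h5.symm, fun h7 => ?_⟩
          rw [card_erase_of_mem h7] at h6
          have := card_pos.mpr ⟨w, h7⟩
          omega
        · rintro ⟨h4, h5, h6⟩
          refine ⟨Ne.symm h4, Ne.symm h5, ?_⟩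
          rw [erase_eq_of_notMem h6, hk]
      rw [h3, card_sdiff_of_subset (subset_univ _), card_insert_of_notMem, card_insert_of_notMem hv, hk,
        if_pos rfl, if_neg (by omega), card_univ]
      · omega
      · simp only [mem_insert, not_or]
        exact ⟨huv, hu⟩
    · by_cases hk1 : D.card = k + 1
      · have h3 : (univ.filter (fun w => u ≠ w ∧ v ≠ w ∧ (D.erase w).card = k)) = D := by
          ext w
          simp only [mem_filter, mem_univ, true_and]
          constructor
          · rintro ⟨h4, h5, h6⟩
            by_contra h7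
            rw [erase_eq_of_notMem h7] at h6
            exact hk h6
          · intro h7
            refine ⟨fun h => hu (h ▸ h7), fun h => hv (h ▸ h7), ?_⟩
            rw [card_erase_of_mem h7, hk1]
            rfl
        rw [h3, hk1, if_neg (by omega), if_pos rfl, zero_add]
      · have h3 : (univ.filter (fun w => u ≠ w ∧ v ≠ w ∧ (D.erase w).card = k)) = ∅ := by
          ext w
          simp only [mem_filter, mem_univ, true_and, notMem_empty, iff_false, not_and]
          intro _ _ h6
          by_cases h7 : w ∈ D
          · rw [card_erase_of_mem h7] at h6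
            have := card_pos.mpr ⟨w, h7⟩
            omega
          · rw [erase_eq_of_notMem h7] at h6
            exact hk h6
        rw [h3, if_neg hk, if_neg hk1, card_empty]
  rw [sum_congr rfl h2, sum_add_distrib, ← sum_filter, ← sum_filter, sum_const, sum_const,
    sCount, sCount, smul_eq_mul, smul_eq_mul]
  ring

/-- The total number of pairs. -/
lemma sum_sCount (G : SimpleGraph V) :
    ∑ k ∈ range (Fintype.card V - 2 + 1), sCount G k = (nonadj G).card := by
  simp only [sCount]
  rw [← card_biUnion]
  · congr 1
    ext p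
    simp only [mem_biUnion, mem_range, mem_filter]
    constructor
    · rintro ⟨k, _, h, _⟩
      exact h
    · intro h
      refine ⟨_, ?_, h, rfl⟩
      have h' := h
      simp only [nonadj, mem_filter, mem_univ, true_and] at h'
      have := card_dist2_le G h'.1 h'.2
      omega
  · intro i _ j _ hij
    rw [Function.onFun, Finset.disjoint_left]
    intro p hp hq
    simp only [mem_filter] at hp hq
    exact hij (hp.2.symm.trans hq.2)

lemma card_nonadj_le (G : SimpleGraph V) :
    (nonadj G).card ≤ Fintype.card V * (Fintype.card V - 1) := by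
  have h1 : nonadj G ⊆ (univ : Finset V).offDiag := by
    intro p hp
    simp only [nonadj, mem_filter, mem_univ, true_and] at hp
    simp [hp.1]
  refine (card_le_card h1).trans ?_
  rw [offDiag_card, card_univ, Nat.mul_sub, mul_one]

/-- `s_0` is even. -/
lemma even_sCount_zero (G : SimpleGraph V) : Even (sCount G 0) := by
  set T := (nonadj G).filter (fun p => (dist2 G p.1 p.2).card = 0) with hT
  obtain ⟨σ, hσ⟩ : ∃ σ : V → ℕ, Function.Injective σ :=
    ⟨fun v => (Fintype.equivFin V v).val, fun a b h =>
      (Fintype.equivFin V).injective (Fin.ext h)⟩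
  have hsymm : ∀ u v, dist2 G u v = dist2 G v u := by
    intro u v
    ext x
    simp only [dist2, mem_filter, mem_univ, true_and]
    tauto
  have hswap : ∀ p : V × V, p ∈ T ↔ p.swap ∈ T := by
    rintro ⟨u, v⟩
    simp only [hT, nonadj, mem_filter, mem_univ, true_and, Prod.swap_prod_mk, hsymm u v,
      G.adj_comm u v, ne_comm (a := u) (b := v)]
  have h1 : (T.filter (fun p => σ p.1 < σ p.2)).card = (T.filter (fun p => σ p.2 < σ p.1)).card := by
    apply card_bij (fun p _ => p.swap)
    · intro p hp
      simp only [mem_filter] at hp ⊢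
      exact ⟨(hswap p).mp hp.1, hp.2⟩
    · intro p _ q _ h
      exact Prod.swap_injective h
    · intro p hp
      simp only [mem_filter] at hp
      refine ⟨p.swap, ?_, Prod.swap_swap p⟩
      simp only [mem_filter]
      exact ⟨(hswap p).mp hp.1, hp.2⟩
  have h2 : T = T.filter (fun p => σ p.1 < σ p.2) ∪ T.filter (fun p => σ p.2 < σ p.1) := by
    ext p
    simp only [mem_union, mem_filter]
    constructor
    · intro hp
      have hne : p.1 ≠ p.2 := by
        simp only [hT, nonadj, mem_filter, mem_univ, true_and] at hp
        exact hp.1.1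
      rcases lt_or_gt_of_ne (fun h => hne (hσ h)) with h | h
      · exact Or.inl ⟨hp, h⟩
      · exact Or.inr ⟨hp, h⟩
    · rintro (h | h)
      · exact h.1
      · exact h.1
  have h3 : T.card = (T.filter (fun p => σ p.1 < σ p.2)).card +
      (T.filter (fun p => σ p.2 < σ p.1)).card := by
    conv_lhs => rw [h2]
    apply card_union_of_disjoint
    rw [Finset.disjoint_left]
    intro p hp hq
    simp only [mem_filter] at hp hq
    exact absurd hp.2 (not_lt.mpr hq.2.le)
  rw [sCount, ← hT, h3, h1]
  exact ⟨_, rfl⟩

lemma two_pow_gt (n : ℕ) (hn : 8 ≤ n) : n * (n - 1) < 2 ^ (n - 2) := by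
  induction n, hn using Nat.le_induction with
  | base => norm_num
  | succ n hn ih =>
    obtain ⟨m, rfl⟩ : ∃ m, n = m + 8 := ⟨n - 8, by omega⟩
    have h1 : m + 8 + 1 - 2 = (m + 8 - 2) + 1 := by omega
    rw [h1, pow_succ]
    have h2 : m + 8 + 1 - 1 = m + 8 := by omega
    have h3 : m + 8 - 1 = m + 7 := by omega
    rw [h2]
    rw [h3] at ih
    nlinarith

/-- If the deleted counts agree, then `s_0(G) = s_0(H)` for graphs with at least eight vertices. -/
theorem sCount_zero_eq (G : SimpleGraph V) (H : SimpleGraph W) (hn : 8 ≤ Fintype.card V)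
    (f : V ≃ W) (h : ∀ v k, sCountDel G v k = sCountDel H (f v) k) :
    sCount G 0 = sCount H 0 := by
  have hcard : Fintype.card W = Fintype.card V := (Fintype.card_congr f).symm
  set N := Fintype.card V - 2 with hN
  have hsum : ∀ k, (N - k) * sCount G k + (k + 1) * sCount G (k + 1) =
      (N - k) * sCount H k + (k + 1) * sCount H (k + 1) := by
    intro k
    have h1 := sum_sCountDel G k
    have h2 := sum_sCountDel H k
    rw [hcard, ← hN] at h2
    rw [← hN] at h1
    rw [← h1, ← h2, ← Equiv.sum_comp f]
    exact sum_congr rfl (fun v _ => h v k)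
  let δ : ℕ → ℤ := fun k => (sCount G k : ℤ) - sCount H k
  have hδ : ∀ k, k ≤ N → δ k = (-1) ^ k * (N.choose k : ℤ) * δ 0 := by
    intro k
    induction k with
    | zero => intro _; simp
    | succ k ih =>
      intro hk
      have ih' := ih (by omega)
      have h1 : ((N - k : ℕ) : ℤ) * δ k + ((k : ℤ) + 1) * δ (k + 1) = 0 := by
        have h2 := hsum k
        have h3 : (((N - k) * sCount G k + (k + 1) * sCount G (k + 1) : ℕ) : ℤ) =
          (((N - k) * sCount H k + (k + 1) * sCount H (k + 1) : ℕ) : ℤ) := by rw [h2]
        simp only [Nat.cast_add, Nat.cast_mul, Nat.cast_one] at h3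
        simp only [δ]
        linear_combination h3
      have h4 : (N.choose (k + 1) : ℤ) * ((k : ℤ) + 1) = (N.choose k : ℤ) * ((N - k : ℕ) : ℤ) := by
        exact_mod_cast Nat.choose_succ_right_eq N k
      have h5 : ((k : ℤ) + 1) * δ (k + 1) =
          ((k : ℤ) + 1) * ((-1) ^ (k + 1) * (N.choose (k + 1) : ℤ) * δ 0) := by
        rw [ih'] at h1
        rw [pow_succ]
        linear_combination h1 + (-1) ^ k * δ 0 * h4
      exact mul_left_cancel₀ (by positivity) h5
  -- sum of absolute values
  have habs : ∑ k ∈ range (N + 1), |δ k| = 2 ^ N * |δ 0| := by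
    have h1 : ∀ k ∈ range (N + 1), |δ k| = (N.choose k : ℤ) * |δ 0| := by
      intro k hk
      rw [hδ k (by simpa [Nat.lt_succ_iff] using hk), abs_mul, abs_mul, abs_pow, abs_neg, abs_one,
        one_pow, one_mul, Nat.abs_cast]
    rw [sum_congr rfl h1, ← sum_mul]
    congr 1
    exact_mod_cast Nat.sum_range_choose N
  have hle : ∑ k ∈ range (N + 1), |δ k| ≤
      2 * ((Fintype.card V * (Fintype.card V - 1) : ℕ) : ℤ) := by
    have h1 : ∀ k ∈ range (N + 1), |δ k| ≤ (sCount G k : ℤ) + sCount H k := by
      intro k _
      simp only [δ]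
      rw [abs_le]
      constructor
      · have := Int.natCast_nonneg (sCount G k)
        linarith
      · have := Int.natCast_nonneg (sCount H k)
        linarith
    refine (sum_le_sum h1).trans ?_
    rw [sum_add_distrib]
    have h2 := sum_sCount G
    have h3 := sum_sCount H
    rw [hcard, ← hN] at h3
    rw [← hN] at h2
    have h4 := card_nonadj_le G
    have h5 := card_nonadj_le H
    rw [hcard] at h5
    have h6 : ((∑ k ∈ range (N + 1), sCount G k : ℕ) : ℤ) ≤
      ((Fintype.card V * (Fintype.card V - 1) : ℕ) : ℤ) := by rw [h2]; exact_mod_cast h4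
    have h7 : ((∑ k ∈ range (N + 1), sCount H k : ℕ) : ℤ) ≤
      ((Fintype.card V * (Fintype.card V - 1) : ℕ) : ℤ) := by rw [h3]; exact_mod_cast h5
    push_cast at h6 h7 ⊢
    linarith
  by_contra hne
  have h0 : δ 0 ≠ 0 := by
    intro h'
    simp only [δ] at h'
    exact hne (by omega)
  have h2 : 2 ≤ |δ 0| := by
    obtain ⟨a, ha⟩ := even_sCount_zero G
    obtain ⟨b, hb⟩ := even_sCount_zero H
    have h3 : δ 0 = 2 * ((a : ℤ) - b) := by
      simp only [δ, ha, hb]
      push_cast
      ring
    have h4 : (a : ℤ) - b ≠ 0 := by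
      intro h'
      rw [h', mul_zero] at h3
      exact h0 h3
    rw [h3, abs_mul]
    have := Int.one_le_abs h4
    norm_num
    linarith
  have h3 := two_pow_gt _ hn
  rw [habs] at hle
  have h4 : (2 : ℤ) ^ N * 2 ≤ 2 ^ N * |δ 0| := mul_le_mul_of_nonneg_left h2 (by positivity)
  have h5 : ((Fintype.card V * (Fintype.card V - 1) : ℕ) : ℤ) < 2 ^ N := by
    rw [← hN] at h3
    exact_mod_cast h3
  linarith

end Pool.Agent.Recon
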