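import Mathlib

/-!
Definitions for the reconstruction of truncated clique lattices (MP_552896_co).
-/

set_option autoImplicit false

namespace Pool.Agent.Recon

universe u

/-- The truncated clique lattice `T(G)`: the set of all nonempty cliques of `G`, ordered by
inclusion. -/
abbrev TCL {V : Type u} (G : SimpleGraph V) : Type u :=
  {s : Finset V // s.Nonempty ∧ G.IsClique (s : Set V)}

/-- The maximal filter deleted subset of `T(G)` at the minimal element `{v}`: the nonempty cliques
that do not contain `v`, ordered by inclusion. -/
abbrev Card {V : Type u} (G : SimpleGraph V) (v : V) : Type u :=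
  {s : Finset V // s.Nonempty ∧ G.IsClique (s : Set V) ∧ v ∉ s}

/-- `T(G)` is reconstructible: every truncated clique lattice `T(H)` with the same deck of maximal
filter deleted subsets as `T(G)` is isomorphic to `T(G)`. -/
def IsReconstructible {V : Type u} (G : SimpleGraph V) : Prop :=
  ∀ (W : Type u) [Fintype W] (H : SimpleGraph W) (f : V ≃ W),
    (∀ v : V, Nonempty (Card G v ≃o Card H (f v))) → Nonempty (TCL G ≃o TCL H)

/-- The (false) twin relation: two vertices are equivalent if they have the same neighbourhood. -/
def twinSetoid {V : Type u} (G : SimpleGraph V) : Setoid V := Setoid.ker G.neighborSet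

/-- The set of twin classes of `G`. -/
abbrev TwinClass {V : Type u} (G : SimpleGraph V) : Type u := Quotient (twinSetoid G)

/-- The twin class of a vertex. -/
abbrev twinClass {V : Type u} (G : SimpleGraph V) (x : V) : TwinClass G :=
  Quotient.mk (twinSetoid G) x

/-- The twin quotient of `G`: its vertices are the twin classes of `G`, and two classes are adjacent
if some (equivalently, every) vertex of one is adjacent to some vertex of the other. -/
def twinQuotient {V : Type u} (G : SimpleGraph V) : SimpleGraph (TwinClass G) where
  Adj a b := ∃ x y, twinClass G x = a ∧ twinClass G y = b ∧ G.Adj x y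
  symm := ⟨by rintro a b ⟨x, y, hx, hy, h⟩; exact ⟨y, x, hy, hx, h.symm⟩⟩
  loopless := ⟨by
    rintro a ⟨x, y, hx, hy, h⟩
    have h1 : G.neighborSet x = G.neighborSet y := Quotient.exact (hx.trans hy.symm)
    have h2 : y ∈ G.neighborSet y := h1 ▸ (show y ∈ G.neighborSet x from h)
    exact G.loopless.irrefl y h2⟩

/-- The number of vertices in a twin class. -/
noncomputable def classSize {V : Type u} (G : SimpleGraph V) (c : TwinClass G) : ℕ :=
  Nat.card {x : V // twinClass G x = c}

/-- `G` has a twin excess: it has at most `n - 2` distinct neighbourhoods, and there are a set `O` of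
twin classes, invariant under the automorphisms of the twin quotient, and a number `s ≥ 1`, such
that more classes in `O` have exactly `s + 1` vertices than have exactly `s` vertices. -/
def HasTwinExcess {V : Type u} [Fintype V] (G : SimpleGraph V) : Prop :=
  Nat.card (TwinClass G) + 2 ≤ Fintype.card V ∧
  ∃ (O : Set (TwinClass G)) (s : ℕ), 1 ≤ s ∧
    (∀ (γ : twinQuotient G ≃g twinQuotient G), ∀ c ∈ O, γ c ∈ O) ∧
    Nat.card {c : TwinClass G // c ∈ O ∧ classSize G c = s} <
      Nat.card {c : TwinClass G // c ∈ O ∧ classSize G c = s + 1}

end Pool.Agent.Recon
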