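import Mathlib
import Pool.Agent.Recon.Defs

set_option autoImplicit false

namespace Pool.Agent.Recon

universe u

variable {V W : Type u}

/-- The vertex `x ≠ v` as a minimal element of the card at `v`. -/
def sing (G : SimpleGraph V) (v : V) (x : {x : V // x ≠ v}) : Card G v :=
  ⟨{x.1}, by simp, by simp, by simpa using fun h => x.2 h.symm⟩

lemma sing_le_iff (G : SimpleGraph V) (v : V) (x : {x : V // x ≠ v}) (t : Card G v) :
    sing G v x ≤ t ↔ x.1 ∈ t.1 := by
  rw [← Subtype.coe_le_coe]
  simp [sing]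

lemma isMin_sing (G : SimpleGraph V) (v : V) (x : {x : V // x ≠ v}) : IsMin (sing G v x) := by
  intro t ht
  have h1 : t.1 ≤ ({x.1} : Finset V) := ht
  obtain ⟨y, hy⟩ := t.2.1
  have hyx : y = x.1 := by simpa using h1 hy
  rw [sing_le_iff]
  rw [← hyx]
  exact hy

lemma exists_sing_of_isMin (G : SimpleGraph V) (v : V) (t : Card G v) (ht : IsMin t) :
    ∃ x, sing G v x = t := by
  obtain ⟨y, hy⟩ := t.2.1
  have hyv : y ≠ v := fun h => t.2.2.2 (h ▸ hy)
  refine ⟨⟨y, hyv⟩, ?_⟩
  have h1 : sing G v ⟨y, hyv⟩ ≤ t := (sing_le_iff G v _ t).mpr hy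
  exact le_antisymm h1 (ht h1)

lemma sing_injective (G : SimpleGraph V) (v : V) : Function.Injective (sing G v) := by
  intro x y h
  have h1 := congrArg Subtype.val h
  simp only [sing, Finset.singleton_inj] at h1
  exact Subtype.ext h1

/-- Vertices other than `v` correspond to minimal elements of the card. -/
noncomputable def singEquiv (G : SimpleGraph V) (v : V) :
    {x : V // x ≠ v} ≃ {t : Card G v // IsMin t} :=
  Equiv.ofBijective (fun x => ⟨sing G v x, isMin_sing G v x⟩) (by
    constructor
    · intro x y h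
      exact sing_injective G v (congrArg Subtype.val h)
    · rintro ⟨t, ht⟩
      obtain ⟨x, hx⟩ := exists_sing_of_isMin G v t ht
      exact ⟨x, Subtype.ext hx⟩)

lemma adj_iff_exists (G : SimpleGraph V) (v : V) (x y : {x : V // x ≠ v}) (hxy : x ≠ y) :
    G.Adj x.1 y.1 ↔ ∃ t : Card G v, sing G v x ≤ t ∧ sing G v y ≤ t := by
  classical
  have hne : x.1 ≠ y.1 := fun h => hxy (Subtype.ext h)
  constructor
  · intro h
    refine ⟨⟨{x.1, y.1}, by simp, ?_, ?_⟩, ?_, ?_⟩
    · intro a ha b hb hab
      simp only [Finset.coe_insert, Finset.coe_singleton, Set.mem_insert_iff,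
        Set.mem_singleton_iff] at ha hb
      rcases ha with rfl | rfl <;> rcases hb with rfl | rfl
      · exact absurd rfl hab
      · exact h
      · exact h.symm
      · exact absurd rfl hab
    · simp only [Finset.mem_insert, Finset.mem_singleton, not_or]
      exact ⟨fun h' => x.2 h'.symm, fun h' => y.2 h'.symm⟩
    · rw [sing_le_iff]; simp
    · rw [sing_le_iff]; simp
  · rintro ⟨t, hx, hy⟩
    rw [sing_le_iff] at hx hy
    exact t.2.2.1 (by exact_mod_cast hx) (by exact_mod_cast hy) hne

/-- An isomorphism of cards of truncated clique lattices gives an isomorphism of the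
vertex-deleted subgraphs. -/
lemma exists_equiv_of_card_iso (G : SimpleGraph V) (H : SimpleGraph W) (v : V) (w : W)
    (e : Card G v ≃o Card H w) :
    ∃ ψ : {x : V // x ≠ v} ≃ {y : W // y ≠ w},
      ∀ x y, G.Adj x.1 y.1 ↔ H.Adj (ψ x).1 (ψ y).1 := by
  classical
  let e' : {t : Card G v // IsMin t} ≃ {t : Card H w // IsMin t} :=
    e.toEquiv.subtypeEquiv (fun t => by
      constructor
      · intro h
        exact (OrderIso.isMin_apply e).mpr h
      · intro h
        exact (OrderIso.isMin_apply e).mp h)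
  let ψ : {x : V // x ≠ v} ≃ {y : W // y ≠ w} :=
    (singEquiv G v).trans (e'.trans (singEquiv H w).symm)
  have hψ : ∀ x, sing H w (ψ x) = e (sing G v x) := by
    intro x
    have h1 : singEquiv H w (ψ x) = e' (singEquiv G v x) := by
      simp [ψ]
    exact congrArg Subtype.val h1
  refine ⟨ψ, fun x y => ?_⟩
  by_cases hxy : x = y
  · subst hxy
    constructor
    · intro h; exact absurd h (G.loopless.irrefl _)
    · intro h; exact absurd h (H.loopless.irrefl _)
  · rw [adj_iff_exists G v x y hxy, adj_iff_exists H w (ψ x) (ψ y) (fun h => hxy (ψ.injective h)),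
      hψ, hψ]
    constructor
    · rintro ⟨t, h1, h2⟩
      exact ⟨e t, e.le_iff_le.mpr h1, e.le_iff_le.mpr h2⟩
    · rintro ⟨t, h1, h2⟩
      refine ⟨e.symm t, ?_, ?_⟩
      · rw [← e.le_iff_le, e.apply_symm_apply]; exact h1
      · rw [← e.le_iff_le, e.apply_symm_apply]; exact h2

/-- Isomorphic graphs have isomorphic truncated clique lattices. -/
lemma tcl_iso_of_iso (G : SimpleGraph V) (H : SimpleGraph W) (g : V ≃ W)
    (hg : ∀ x y, G.Adj x y ↔ H.Adj (g x) (g y)) : Nonempty (TCL G ≃o TCL H) := by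
  classical
  have key : ∀ s : Finset V, (s.Nonempty ∧ G.IsClique (s : Set V)) ↔
      ((Equiv.finsetCongr g s).Nonempty ∧ H.IsClique ((Equiv.finsetCongr g s : Finset W) : Set W)) := by
    intro s
    refine and_congr (by simp) ?_
    rw [Equiv.finsetCongr_apply]
    constructor
    · intro h a ha b hb hab
      simp only [Finset.coe_map, Set.mem_image, Finset.mem_coe, Equiv.coe_toEmbedding] at ha hb
      obtain ⟨x, hx, rfl⟩ := ha
      obtain ⟨y, hy, rfl⟩ := hb
      exact (hg x y).mp (h (by exact_mod_cast hx) (by exact_mod_cast hy) (fun h' => hab (h' ▸ rfl)))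
    · intro h a ha b hb hab
      refine (hg a b).mpr (h ?_ ?_ (fun h' => hab (g.injective h')))
      · simp only [Finset.coe_map, Set.mem_image, Finset.mem_coe, Equiv.coe_toEmbedding]
        exact ⟨a, ha, rfl⟩
      · simp only [Finset.coe_map, Set.mem_image, Finset.mem_coe, Equiv.coe_toEmbedding]
        exact ⟨b, hb, rfl⟩
  refine ⟨⟨(Equiv.finsetCongr g).subtypeEquiv key, ?_⟩⟩
  intro s t
  rw [← Subtype.coe_le_coe, ← Subtype.coe_le_coe]
  simp

end Pool.Agent.Recon
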