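import Mathlib
import Pool.Agent.Recon.Count

/-!
The size of the twin class of a vertex is determined by the deck.
-/

set_option autoImplicit false

namespace Pool.Agent.Recon

open Finset Classical

variable {V W : Type*} [Fintype V] [Fintype W]

/-- auxiliary: the deleted count, computed inside the subtype. -/
noncomputable def sSub (G : SimpleGraph V) (w : V) (k : ℕ) : ℕ :=
  (univ.filter (fun p : {x : V // x ≠ w} × {x : V // x ≠ w} => p.1 ≠ p.2 ∧ ¬ G.Adj p.1.1 p.2.1 ∧
    (univ.filter (fun x : {x : V // x ≠ w} => ¬ (G.Adj p.1.1 x.1 ↔ G.Adj p.2.1 x.1))).card = k)).card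

lemma inner_card (G : SimpleGraph V) (w u v : V) :
    (univ.filter (fun x : {x : V // x ≠ w} => ¬ (G.Adj u x.1 ↔ G.Adj v x.1))).card =
      ((dist2 G u v).erase w).card := by
  apply card_bij (fun x _ => x.1)
  · intro x hx
    simp only [mem_filter, mem_univ, true_and] at hx
    simp only [mem_erase, dist2, mem_filter, mem_univ, true_and]
    exact ⟨x.2, hx⟩
  · intro x _ y _ h
    exact Subtype.ext h
  · intro y hy
    simp only [mem_erase, dist2, mem_filter, mem_univ, true_and] at hy
    exact ⟨⟨y, hy.1⟩, by simpa using hy.2, rfl⟩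

lemma sSub_eq (G : SimpleGraph V) (w : V) (k : ℕ) : sSub G w k = sCountDel G w k := by
  apply card_bij (fun p _ => (p.1.1, p.2.1))
  · intro p hp
    simp only [mem_filter, mem_univ, true_and] at hp
    obtain ⟨h1, h2, h3⟩ := hp
    rw [inner_card] at h3
    simp only [mem_filter, nonadj, mem_univ, true_and]
    exact ⟨⟨fun h => h1 (Subtype.ext h), h2⟩, p.1.2, p.2.2, h3⟩
  · intro p _ q _ h
    simp only [Prod.mk.injEq] at h
    exact Prod.ext (Subtype.ext h.1) (Subtype.ext h.2)
  · rintro ⟨u, v⟩ hp
    simp only [mem_filter, nonadj, mem_univ, true_and] at hp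
    obtain ⟨⟨h1, h2⟩, h3, h4, h5⟩ := hp
    refine ⟨(⟨u, h3⟩, ⟨v, h4⟩), ?_, rfl⟩
    simp only [mem_filter, mem_univ, true_and]
    refine ⟨fun h => h1 (congrArg Subtype.val h), h2, ?_⟩
    rw [inner_card]
    exact h5

/-- The deleted counts only depend on the isomorphism type of the vertex-deleted subgraph. -/
lemma sCountDel_congr (G : SimpleGraph V) (H : SimpleGraph W) (v : V) (w : W)
    (ψ : {x : V // x ≠ v} ≃ {y : W // y ≠ w})
    (hψ : ∀ x y, G.Adj x.1 y.1 ↔ H.Adj (ψ x).1 (ψ y).1) (k : ℕ) :
    sCountDel G v k = sCountDel H w k := by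
  rw [← sSub_eq, ← sSub_eq]
  apply card_bij (fun p _ => (ψ p.1, ψ p.2))
  · intro p hp
    simp only [mem_filter, mem_univ, true_and] at hp ⊢
    refine ⟨fun h => hp.1 (ψ.injective h), ?_, ?_⟩
    · rw [← hψ]; exact hp.2.1
    · rw [← hp.2.2]
      symm
      apply card_bij (fun x _ => ψ x)
      · intro x hx
        simp only [mem_filter, mem_univ, true_and] at hx ⊢
        rw [← hψ, ← hψ]
        exact hx
      · intro x _ y _ h
        exact ψ.injective h
      · intro y hy
        simp only [mem_filter, mem_univ, true_and] at hy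
        refine ⟨ψ.symm y, ?_, ψ.apply_symm_apply y⟩
        simp only [mem_filter, mem_univ, true_and]
        rw [hψ, hψ, ψ.apply_symm_apply]
        exact hy
  · intro p _ q _ h
    simp only [Prod.mk.injEq] at h
    exact Prod.ext (ψ.injective h.1) (ψ.injective h.2)
  · rintro ⟨a, b⟩ hp
    simp only [mem_filter, mem_univ, true_and] at hp
    refine ⟨(ψ.symm a, ψ.symm b), ?_, by simp⟩
    simp only [mem_filter, mem_univ, true_and]
    refine ⟨fun h => hp.1 (ψ.symm.injective h), ?_, ?_⟩
    · rw [hψ, ψ.apply_symm_apply, ψ.apply_symm_apply]; exact hp.2.1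
    · rw [← hp.2.2]
      apply card_bij (fun x _ => ψ x)
      · intro x hx
        simp only [mem_filter, mem_univ, true_and] at hx ⊢
        rw [hψ, hψ, ψ.apply_symm_apply, ψ.apply_symm_apply] at hx
        exact hx
      · intro x _ y _ h
        exact ψ.injective h
      · intro y hy
        simp only [mem_filter, mem_univ, true_and] at hy
        refine ⟨ψ.symm y, ?_, ψ.apply_symm_apply y⟩
        simp only [mem_filter, mem_univ, true_and]
        rw [hψ, hψ, ψ.apply_symm_apply, ψ.apply_symm_apply, ψ.apply_symm_apply]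
        exact hy

/-- the number of vertices (including `x`) with the same neighbourhood as `x`. -/
noncomputable def mult (G : SimpleGraph V) (x : V) : ℕ :=
  (univ.filter (fun y => G.neighborSet y = G.neighborSet x)).card

lemma one_le_mult (G : SimpleGraph V) (x : V) : 1 ≤ mult G x :=
  card_pos.mpr ⟨x, by simp⟩

/-- ordered pairs of distinct twins. -/
noncomputable def twinPairs (G : SimpleGraph V) : Finset (V × V) :=
  univ.filter (fun p => p.1 ≠ p.2 ∧ G.neighborSet p.1 = G.neighborSet p.2)

lemma dist2_card_zero_iff (G : SimpleGraph V) (u v : V) :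
    (dist2 G u v).card = 0 ↔ G.neighborSet u = G.neighborSet v := by
  rw [card_eq_zero, dist2, filter_eq_empty_iff]
  constructor
  · intro h
    ext x
    have := h (mem_univ x)
    simpa using not_not.mp this
  · intro h x _
    rw [not_not]
    have : x ∈ G.neighborSet u ↔ x ∈ G.neighborSet v := by rw [h]
    simpa using this

lemma not_adj_of_twin (G : SimpleGraph V) {u v : V} (h : G.neighborSet u = G.neighborSet v) :
    ¬ G.Adj u v := by
  intro h'
  have : v ∈ G.neighborSet v := h ▸ (show v ∈ G.neighborSet u from h')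
  exact G.loopless.irrefl v this

lemma sCount_zero (G : SimpleGraph V) : sCount G 0 = (twinPairs G).card := by
  rw [sCount]
  congr 1
  ext p
  simp only [nonadj, twinPairs, mem_filter, mem_univ, true_and, dist2_card_zero_iff]
  constructor
  · rintro ⟨⟨h1, _⟩, h3⟩
    exact ⟨h1, h3⟩
  · rintro ⟨h1, h3⟩
    exact ⟨⟨h1, not_adj_of_twin G h3⟩, h3⟩

lemma card_twinPairs_fst (G : SimpleGraph V) (w : V) :
    ((twinPairs G).filter (fun p => p.1 = w)).card = mult G w - 1 := by
  have h1 : (univ.filter (fun y => G.neighborSet y = G.neighborSet w)).erase w =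
      (univ.filter (fun y => y ≠ w ∧ G.neighborSet y = G.neighborSet w)) := by
    ext y
    simp only [mem_erase, mem_filter, mem_univ, true_and]
  have h2 : mult G w - 1 = (univ.filter (fun y => y ≠ w ∧ G.neighborSet y = G.neighborSet w)).card := by
    rw [← h1, card_erase_of_mem (by simp), mult]
  rw [h2]
  apply card_bij (fun p _ => p.2)
  · intro p hp
    simp only [mem_filter, twinPairs, mem_univ, true_and] at hp ⊢
    obtain ⟨⟨h3, h4⟩, h5⟩ := hp
    rw [h5] at h3 h4
    exact ⟨h3.symm, h4.symm⟩
  · intro p hp q hq h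
    simp only [mem_filter] at hp hq
    exact Prod.ext (hp.2.trans hq.2.symm) h
  · intro y hy
    simp only [mem_filter, mem_univ, true_and] at hy
    exact ⟨(w, y), by simp only [mem_filter, twinPairs, mem_univ, true_and]; exact ⟨⟨hy.1.symm, hy.2.symm⟩, trivial⟩, rfl⟩

lemma card_twinPairs_snd (G : SimpleGraph V) (w : V) :
    ((twinPairs G).filter (fun p => p.2 = w)).card = mult G w - 1 := by
  rw [← card_twinPairs_fst]
  apply card_bij (fun p _ => p.swap)
  · intro p hp
    simp only [mem_filter, twinPairs, mem_univ, true_and, Prod.fst_swap, Prod.snd_swap] at hp ⊢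
    exact ⟨⟨hp.1.1.symm, hp.1.2.symm⟩, hp.2⟩
  · intro p _ q _ h
    exact Prod.swap_injective h
  · intro p hp
    refine ⟨p.swap, ?_, Prod.swap_swap p⟩
    simp only [mem_filter, twinPairs, mem_univ, true_and, Prod.fst_swap, Prod.snd_swap] at hp ⊢
    exact ⟨⟨hp.1.1.symm, hp.1.2.symm⟩, hp.2⟩

lemma card_twinPairs_split (G : SimpleGraph V) (w : V) :
    (twinPairs G).card = ((twinPairs G).filter (fun p => p.1 ≠ w ∧ p.2 ≠ w)).card +
      2 * (mult G w - 1) := by
  have h1 : twinPairs G = (twinPairs G).filter (fun p => p.1 ≠ w ∧ p.2 ≠ w) ∪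
      ((twinPairs G).filter (fun p => p.1 = w) ∪ (twinPairs G).filter (fun p => p.2 = w)) := by
    ext p
    simp only [mem_union, mem_filter]
    tauto
  conv_lhs => rw [h1]
  rw [card_union_of_disjoint, card_union_of_disjoint, card_twinPairs_fst, card_twinPairs_snd,
    two_mul]
  · rw [Finset.disjoint_left]
    intro p hp hq
    simp only [mem_filter, twinPairs, mem_univ, true_and] at hp hq
    exact hp.1.1 (hp.2.trans hq.2.symm)
  · rw [Finset.disjoint_left]
    intro p hp hq
    simp only [mem_union, mem_filter] at hp hq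
    rcases hq with hq | hq
    · exact hp.2.1 hq.2
    · exact hp.2.2 hq.2

lemma twinPairs_filter_subset (G : SimpleGraph V) (w : V) :
    ((twinPairs G).filter (fun p => p.1 ≠ w ∧ p.2 ≠ w)) ⊆
    ((nonadj G).filter (fun p => p.1 ≠ w ∧ p.2 ≠ w ∧ ((dist2 G p.1 p.2).erase w).card = 0)) := by
  intro p hp
  simp only [mem_filter, twinPairs, nonadj, mem_univ, true_and] at hp ⊢
  obtain ⟨⟨h1, h2⟩, h3, h4⟩ := hp
  refine ⟨⟨h1, not_adj_of_twin G h2⟩, h3, h4, ?_⟩
  have h5 : (dist2 G p.1 p.2) = ∅ := card_eq_zero.mp ((dist2_card_zero_iff G _ _).mpr h2)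
  rw [h5]
  rfl

lemma sCount_le (G : SimpleGraph V) (w : V) :
    sCount G 0 ≤ sCountDel G w 0 + 2 * (mult G w - 1) := by
  rw [sCount_zero, card_twinPairs_split G w]
  exact Nat.add_le_add_right (card_le_card (twinPairs_filter_subset G w)) _

/-- if `w` has a twin, deleting `w` creates no new twins. -/
lemma twin_of_del (G : SimpleGraph V) {w w' : V} (hne : w' ≠ w)
    (htw : G.neighborSet w' = G.neighborSet w) {x y : V}
    (h : ∀ z, z ≠ w → (G.Adj x z ↔ G.Adj y z)) : G.neighborSet x = G.neighborSet y := by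
  have hadj : ∀ z, G.Adj z w ↔ G.Adj z w' := by
    intro z
    rw [G.adj_comm z w, G.adj_comm z w']
    have : z ∈ G.neighborSet w' ↔ z ∈ G.neighborSet w := by rw [htw]
    simpa using this.symm
  ext z
  rw [SimpleGraph.mem_neighborSet, SimpleGraph.mem_neighborSet]
  by_cases hz : z = w
  · subst hz
    rw [hadj x, hadj y]
    exact h w' hne
  · exact h z hz

lemma sCount_eq (G : SimpleGraph V) (w : V) (hw : 2 ≤ mult G w) :
    sCount G 0 = sCountDel G w 0 + 2 * (mult G w - 1) := by
  rw [sCount_zero, card_twinPairs_split G w]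
  congr 1
  apply le_antisymm (card_le_card (twinPairs_filter_subset G w))
  apply card_le_card
  obtain ⟨w', hw', hne⟩ : ∃ w', w' ∈ univ.filter (fun y => G.neighborSet y = G.neighborSet w) ∧ w' ≠ w :=
    exists_mem_ne (by exact hw) w
  simp only [mem_filter, mem_univ, true_and] at hw'
  intro p hp
  simp only [mem_filter, twinPairs, nonadj, mem_univ, true_and] at hp ⊢
  obtain ⟨⟨h1, h2⟩, h3, h4, h5⟩ := hp
  refine ⟨⟨h1, ?_⟩, h3, h4⟩
  apply twin_of_del G hne hw'
  intro z hz
  by_contra hcon
  have h6 : z ∈ (dist2 G p.1 p.2).erase w := by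
    simp only [mem_erase, dist2, mem_filter, mem_univ, true_and]
    exact ⟨hz, hcon⟩
  rw [card_eq_zero.mp h5] at h6
  exact absurd h6 (notMem_empty z)

/-- The multiplicity of each vertex is determined by the deck. -/
theorem mult_eq (G : SimpleGraph V) (H : SimpleGraph W) (hn : 8 ≤ Fintype.card V) (f : V ≃ W)
    (hdeck : ∀ v : V, ∃ ψ : {x : V // x ≠ v} ≃ {y : W // y ≠ f v},
      ∀ x y, G.Adj x.1 y.1 ↔ H.Adj (ψ x).1 (ψ y).1) (v : V) :
    mult G v = mult H (f v) := by
  have hdel : ∀ v k, sCountDel G v k = sCountDel H (f v) k := by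
    intro v k
    obtain ⟨ψ, hψ⟩ := hdeck v
    exact sCountDel_congr G H v (f v) ψ hψ k
  have h0 := sCount_zero_eq G H hn f hdel
  have h1 := sCount_le G v
  have h2 := sCount_le H (f v)
  have h3 := one_le_mult G v
  have h4 := one_le_mult H (f v)
  have h5 := hdel v 0
  by_cases hG : 2 ≤ mult G v
  · have h6 := sCount_eq G v hG
    by_cases hH : 2 ≤ mult H (f v)
    · have h7 := sCount_eq H (f v) hH
      omega
    · omega
  · by_cases hH : 2 ≤ mult H (f v)
    · have h7 := sCount_eq H (f v) hH
      omega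
    · omega

end Pool.Agent.Recon
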