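import Mathlib
import Pool.Agent.Recon.Defs
import Pool.Agent.Recon.Poset
import Pool.Agent.Recon.Count
import Pool.Agent.Recon.Twins
import Pool.Agent.Recon.Abstract

/-!
Graph level reconstruction theorem for graphs with a twin excess.
-/

set_option autoImplicit false

namespace Pool.Agent.Recon

open Classical

universe u

variable {V W : Type u}

lemma twinClass_eq_iff (G : SimpleGraph V) (x y : V) :
    twinClass G x = twinClass G y ↔ G.neighborSet x = G.neighborSet y := by
  constructor
  · intro h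
    exact Quotient.exact h
  · intro h
    exact Quotient.sound h

lemma twinQuotient_adj (G : SimpleGraph V) (x y : V) :
    (twinQuotient G).Adj (twinClass G x) (twinClass G y) ↔ G.Adj x y := by
  constructor
  · rintro ⟨x', y', hx, hy, h⟩
    rw [twinClass_eq_iff] at hx hy
    have h1 : y' ∈ G.neighborSet x := hx ▸ (show y' ∈ G.neighborSet x' from h)
    have h2 : x ∈ G.neighborSet y := hy ▸ (show x ∈ G.neighborSet y' from SimpleGraph.Adj.symm h1)
    exact SimpleGraph.Adj.symm h2
  · intro h
    exact ⟨x, y, rfl, rfl, h⟩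

/-- extension of the vertex map by sending `v` to the image of its twin -/
noncomputable def extMap (v v' : V) (hv' : v' ≠ v) {w : W}
    (ψ : {x : V // x ≠ v} ≃ {y : W // y ≠ w}) (x : V) : W :=
  if h : x = v then (ψ ⟨v', hv'⟩).1 else (ψ ⟨x, h⟩).1

lemma extMap_self (v v' : V) (hv' : v' ≠ v) {w : W}
    (ψ : {x : V // x ≠ v} ≃ {y : W // y ≠ w}) : extMap v v' hv' ψ v = (ψ ⟨v', hv'⟩).1 := by
  simp [extMap]

lemma extMap_of_ne (v v' : V) (hv' : v' ≠ v) {w : W}
    (ψ : {x : V // x ≠ v} ≃ {y : W // y ≠ w}) (x : V) (hx : x ≠ v) :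
    extMap v v' hv' ψ x = (ψ ⟨x, hx⟩).1 := by
  simp [extMap, hx]

lemma extMap_adj (G : SimpleGraph V) (H : SimpleGraph W) (v v' : V) (hv' : v' ≠ v)
    (htw : G.neighborSet v' = G.neighborSet v) (w : W)
    (ψ : {x : V // x ≠ v} ≃ {y : W // y ≠ w})
    (hψ : ∀ x y, G.Adj x.1 y.1 ↔ H.Adj (ψ x).1 (ψ y).1) (x y : V) :
    H.Adj (extMap v v' hv' ψ x) (extMap v v' hv' ψ y) ↔ G.Adj x y := by
  have hadj : ∀ z, G.Adj v' z ↔ G.Adj v z := by
    intro z
    have : z ∈ G.neighborSet v' ↔ z ∈ G.neighborSet v := by rw [htw]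
    simpa using this
  by_cases hx : x = v <;> by_cases hy : y = v
  · subst hx; subst hy
    constructor
    · intro h; exact absurd h (H.loopless.irrefl _)
    · intro h; exact absurd h (G.loopless.irrefl _)
  · subst hx
    rw [extMap_self, extMap_of_ne _ _ _ _ y hy, ← hψ]
    exact hadj y
  · subst hy
    rw [extMap_self, extMap_of_ne _ _ _ _ x hx, ← hψ, G.adj_comm, G.adj_comm x y]
    exact hadj x
  · rw [extMap_of_ne _ _ _ _ x hx, extMap_of_ne _ _ _ _ y hy, ← hψ]

lemma extMap_extMap (G : SimpleGraph V) (v v' : V) (hv' : v' ≠ v)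
    (htw : G.neighborSet v' = G.neighborSet v) (w w' : W) (hw' : w' ≠ w)
    (ψ : {x : V // x ≠ v} ≃ {y : W // y ≠ w}) (x : V) :
    G.neighborSet (extMap w w' hw' ψ.symm (extMap v v' hv' ψ x)) = G.neighborSet x := by
  by_cases hx : x = v
  · subst hx
    rw [extMap_self, extMap_of_ne _ _ _ _ _ (ψ ⟨v', hv'⟩).2]
    simpa using htw
  · rw [extMap_of_ne _ _ _ _ x hx, extMap_of_ne _ _ _ _ _ (ψ ⟨x, hx⟩).2]
    simp

/-- the map preserves the twin relation -/
lemma extMap_twin (G : SimpleGraph V) (H : SimpleGraph W) (v v' : V) (hv' : v' ≠ v)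
    (htw : G.neighborSet v' = G.neighborSet v) (w w' : W) (hw' : w' ≠ w)
    (htw' : H.neighborSet w' = H.neighborSet w)
    (ψ : {x : V // x ≠ v} ≃ {y : W // y ≠ w})
    (hψ : ∀ x y, G.Adj x.1 y.1 ↔ H.Adj (ψ x).1 (ψ y).1) {x y : V}
    (hxy : G.neighborSet x = G.neighborSet y) :
    H.neighborSet (extMap v v' hv' ψ x) = H.neighborSet (extMap v v' hv' ψ y) := by
  have hψs : ∀ x y, H.Adj x.1 y.1 ↔ G.Adj (ψ.symm x).1 (ψ.symm y).1 := by
    intro x y
    rw [hψ, ψ.apply_symm_apply, ψ.apply_symm_apply]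
  -- replace `z` by a twin in the image
  have key : ∀ (z : W) (x : V), H.Adj (extMap v v' hv' ψ x) z ↔
      G.Adj x (extMap w w' hw' ψ.symm z) := by
    intro z x
    have h1 := extMap_extMap H w w' hw' htw' v v' hv' ψ.symm z
    rw [Equiv.symm_symm] at h1
    have h2 : H.Adj z (extMap v v' hv' ψ x) ↔
        H.Adj (extMap v v' hv' ψ (extMap w w' hw' ψ.symm z)) (extMap v v' hv' ψ x) := by
      have : extMap v v' hv' ψ x ∈ H.neighborSet z ↔ extMap v v' hv' ψ x ∈
        H.neighborSet (extMap v v' hv' ψ (extMap w w' hw' ψ.symm z)) := by rw [h1]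
      simpa using this
    rw [H.adj_comm, h2, extMap_adj G H v v' hv' htw w ψ hψ, G.adj_comm]
  ext z
  rw [SimpleGraph.mem_neighborSet, SimpleGraph.mem_neighborSet, key, key]
  have : extMap w w' hw' ψ.symm z ∈ G.neighborSet x ↔ extMap w w' hw' ψ.symm z ∈ G.neighborSet y := by
    rw [hxy]
  simpa using this

/-- An isomorphism `G - v ≅ H - w`, where both `v` and `w` have twins, induces an isomorphism of the
twin quotients. -/
lemma exists_quotient_iso (G : SimpleGraph V) (H : SimpleGraph W) (v v' : V) (hv' : v' ≠ v)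
    (htw : G.neighborSet v' = G.neighborSet v) (w w' : W) (hw' : w' ≠ w)
    (htw' : H.neighborSet w' = H.neighborSet w)
    (ψ : {x : V // x ≠ v} ≃ {y : W // y ≠ w})
    (hψ : ∀ x y, G.Adj x.1 y.1 ↔ H.Adj (ψ x).1 (ψ y).1) :
    ∃ γ : twinQuotient G ≃g twinQuotient H,
      ∀ x (hx : x ≠ v), γ (twinClass G x) = twinClass H (ψ ⟨x, hx⟩).1 := by
  have hψs : ∀ x y, H.Adj x.1 y.1 ↔ G.Adj (ψ.symm x).1 (ψ.symm y).1 := by
    intro x y
    rw [hψ, ψ.apply_symm_apply, ψ.apply_symm_apply]
  have hψss : ∀ x y, G.Adj x.1 y.1 ↔ H.Adj (ψ.symm.symm x).1 (ψ.symm.symm y).1 := by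
    intro x y
    rw [Equiv.symm_symm]; exact hψ x y
  let γ₀ : TwinClass G ≃ TwinClass H :=
    { toFun := Quotient.map (extMap v v' hv' ψ) (fun x y hxy =>
        extMap_twin G H v v' hv' htw w w' hw' htw' ψ hψ hxy)
      invFun := Quotient.map (extMap w w' hw' ψ.symm) (fun x y hxy =>
        extMap_twin H G w w' hw' htw' v v' hv' htw ψ.symm hψs hxy)
      left_inv := by
        intro c
        induction c using Quotient.inductionOn with
        | h x =>
          apply Quotient.sound
          exact extMap_extMap G v v' hv' htw w w' hw' ψ x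
      right_inv := by
        intro c
        induction c using Quotient.inductionOn with
        | h x =>
          apply Quotient.sound
          have h1 := extMap_extMap H w w' hw' htw' v v' hv' ψ.symm x
          rw [Equiv.symm_symm] at h1
          exact h1 }
  have hγ₀ : ∀ x, γ₀ (twinClass G x) = twinClass H (extMap v v' hv' ψ x) := fun x => rfl
  refine ⟨⟨γ₀, ?_⟩, ?_⟩
  · intro a b
    induction a using Quotient.inductionOn with
    | h x =>
      induction b using Quotient.inductionOn with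
      | h y =>
        change (twinQuotient H).Adj (γ₀ (twinClass G x)) (γ₀ (twinClass G y)) ↔
          (twinQuotient G).Adj (twinClass G x) (twinClass G y)
        rw [hγ₀, hγ₀, twinQuotient_adj, twinQuotient_adj, extMap_adj G H v v' hv' htw w ψ hψ]
  · intro x hx
    change γ₀ (twinClass G x) = _
    rw [hγ₀, extMap_of_ne _ _ _ _ x hx]

variable [Fintype V] [Fintype W]

lemma classSize_eq_card (G : SimpleGraph V) (c : TwinClass G) :
    classSize G c = (Finset.univ.filter (fun x => twinClass G x = c)).card := by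
  rw [classSize, Nat.card_eq_fintype_card, Fintype.card_subtype]

lemma classSize_twinClass (G : SimpleGraph V) (x : V) : classSize G (twinClass G x) = mult G x := by
  rw [classSize_eq_card, mult]
  congr 1
  ext y
  simp only [Finset.mem_filter, Finset.mem_univ, true_and]
  exact twinClass_eq_iff G y x

lemma card_filter_ne (G : SimpleGraph V) (v : V) (c : TwinClass G) :
    (Finset.univ.filter (fun x => x ≠ v ∧ twinClass G x = c)).card =
      classSize G c - (if twinClass G v = c then 1 else 0) := by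
  rw [classSize_eq_card]
  have h1 : (Finset.univ.filter (fun x => x ≠ v ∧ twinClass G x = c)) =
      (Finset.univ.filter (fun x => twinClass G x = c)).erase v := by
    ext x
    simp only [Finset.mem_filter, Finset.mem_univ, true_and, Finset.mem_erase]
  rw [h1]
  split_ifs with h
  · rw [Finset.card_erase_of_mem (by simpa using h)]
  · rw [Finset.erase_eq_of_notMem (by simpa using h), Nat.sub_zero]

/-- If the twin quotients are isomorphic with the same class sizes, the graphs are isomorphic. -/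
lemma iso_of_quotient_iso (G : SimpleGraph V) (H : SimpleGraph W)
    (γ : twinQuotient G ≃g twinQuotient H) (hγ : ∀ c, classSize H (γ c) = classSize G c) :
    ∃ g : V ≃ W, ∀ x y, G.Adj x y ↔ H.Adj (g x) (g y) := by
  have hfib : ∀ c : TwinClass G, Nonempty ({x : V // twinClass G x = c} ≃
      {y : W // twinClass H y = γ c}) := by
    intro c
    have := hγ c
    rw [classSize, classSize, Nat.card_eq_fintype_card, Nat.card_eq_fintype_card] at this
    exact ⟨(Fintype.equivOfCardEq this).symm⟩
  let e := fun c => (hfib c).some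
  let g : V ≃ W :=
    (Equiv.sigmaFiberEquiv (twinClass G)).symm.trans
      ((Equiv.sigmaCongr γ.toEquiv (fun c => e c)).trans (Equiv.sigmaFiberEquiv (twinClass H)))
  have hg : ∀ x, twinClass H (g x) = γ (twinClass G x) := by
    intro x
    exact (e (twinClass G x) ⟨x, rfl⟩).2
  refine ⟨g, fun x y => ?_⟩
  rw [← twinQuotient_adj H, hg, hg, γ.map_adj_iff, twinQuotient_adj]

/-- **Graph level theorem.** -/
theorem recon_of_twinExcess (G : SimpleGraph V) (H : SimpleGraph W) (hn : 8 ≤ Fintype.card V)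
    (f : V ≃ W)
    (hdeck : ∀ v : V, ∃ ψ : {x : V // x ≠ v} ≃ {y : W // y ≠ f v},
      ∀ x y, G.Adj x.1 y.1 ↔ H.Adj (ψ x).1 (ψ y).1)
    (hex : HasTwinExcess G) :
    ∃ g : V ≃ W, ∀ x y, G.Adj x y ↔ H.Adj (g x) (g y) := by
  obtain ⟨hcard, O, s, hs, hO, hlt⟩ := hex
  have hmult := mult_eq G H hn f hdeck
  -- the isomorphisms of twin quotients
  have hg : ∀ v, 2 ≤ classSize G (twinClass G v) → ∃ γ : twinQuotient G ≃g twinQuotient H,
      ∀ c, classSize G c - (if twinClass G v = c then 1 else 0) =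
        classSize H (γ c) - (if twinClass H (f v) = γ c then 1 else 0) := by
    intro v hv
    rw [classSize_twinClass] at hv
    have hw := hv
    rw [hmult v] at hw
    obtain ⟨v', hv', hne⟩ := Finset.exists_mem_ne (by exact hv : 1 < mult G v) v
    obtain ⟨w', hw', hne'⟩ := Finset.exists_mem_ne (by exact hw : 1 < mult H (f v)) (f v)
    simp only [Finset.mem_filter, Finset.mem_univ, true_and] at hv' hw'
    obtain ⟨ψ, hψ⟩ := hdeck v
    obtain ⟨γ, hγ⟩ := exists_quotient_iso G H v v' hne hv' (f v) w' hne' hw' ψ hψ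
    refine ⟨γ, fun c => ?_⟩
    rw [← card_filter_ne, ← card_filter_ne]
    have hiff : ∀ x : {x : V // x ≠ v}, twinClass G x.1 = c ↔ twinClass H (ψ x).1 = γ c := by
      intro x
      have h1 := hγ x.1 x.2
      have h2 : (⟨x.1, x.2⟩ : {x : V // x ≠ v}) = x := rfl
      rw [h2] at h1
      rw [← h1]
      exact ⟨fun h => by rw [h], fun h => γ.injective h⟩
    apply Finset.card_bij (fun x hx => (ψ ⟨x, (Finset.mem_filter.mp hx).2.1⟩).1)
    · intro x hx
      have hx' := (Finset.mem_filter.mp hx).2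
      simp only [Finset.mem_filter, Finset.mem_univ, true_and]
      exact ⟨(ψ ⟨x, hx'.1⟩).2, (hiff ⟨x, hx'.1⟩).mp hx'.2⟩
    · intro x hx y hy h
      have := ψ.injective (Subtype.ext h)
      exact congrArg Subtype.val this
    · intro y hy
      simp only [Finset.mem_filter, Finset.mem_univ, true_and] at hy
      refine ⟨(ψ.symm ⟨y, hy.1⟩).1, ?_, ?_⟩
      · simp only [Finset.mem_filter, Finset.mem_univ, true_and]
        refine ⟨(ψ.symm ⟨y, hy.1⟩).2, ?_⟩
        rw [hiff, ψ.apply_symm_apply]
        exact hy.2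
      · simp
  have hne : Nonempty (twinQuotient G ≃g twinQuotient H) := by
    have h1 : 0 < Nat.card {c : TwinClass G // c ∈ O ∧ classSize G c = s + 1} := by omega
    rw [Nat.card_eq_fintype_card, Fintype.card_pos_iff] at h1
    obtain ⟨c, _, hc⟩ := h1
    obtain ⟨x, rfl⟩ := Quotient.exists_rep c
    obtain ⟨γ, _⟩ := hg x (by
      have : classSize G (twinClass G x) = s + 1 := hc
      omega)
    exact ⟨γ⟩
  choose! g₀ hg₀ using hg
  -- some vertex of multiplicity at least two
  let ΓA : Set (TwinClass G ≃ TwinClass G) :=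
    {α | ∃ γ : twinQuotient G ≃g twinQuotient G, γ.toEquiv = α}
  let Γ : Set (TwinClass G ≃ TwinClass H) :=
    {α | ∃ γ : twinQuotient G ≃g twinQuotient H, γ.toEquiv = α}
  have hfinlt : (Finset.univ.filter (fun c => c ∈ O ∧ classSize G c = s)).card <
      (Finset.univ.filter (fun c => c ∈ O ∧ classSize G c = s + 1)).card := by
    rw [Nat.card_eq_fintype_card, Nat.card_eq_fintype_card, Fintype.card_subtype,
      Fintype.card_subtype] at hlt
    exact hlt
  rw [Nat.card_eq_fintype_card] at hcard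
  have hab : ∀ v, classSize G (twinClass G v) = classSize H (twinClass H (f v)) := by
    intro v
    rw [classSize_twinClass, classSize_twinClass, hmult v]
  have hposG : ∀ c : TwinClass G, 1 ≤ classSize G c := by
    intro c
    obtain ⟨x, rfl⟩ := Quotient.exists_rep c
    exact (classSize_twinClass G x).symm ▸ one_le_mult G x
  have hposH : ∀ c : TwinClass H, 1 ≤ classSize H c := by
    intro c
    obtain ⟨x, rfl⟩ := Quotient.exists_rep c
    exact (classSize_twinClass H x).symm ▸ one_le_mult H x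
  obtain ⟨γ, ⟨γ', rfl⟩, hγ⟩ := abstract_recon (V := V) (twinClass G) (fun v => twinClass H (f v))
    (classSize G) (classSize H)
    (fun c => by
      rw [classSize_eq_card]
      exact congrArg Finset.card (Finset.ext (fun x => by simp only [Finset.mem_filter])))
    (fun d => by
      rw [classSize_eq_card H d]
      apply Finset.card_bij (fun v _ => f v)
      · intro v hv
        simpa using hv
      · intro x _ y _ h
        exact f.injective h
      · intro y hy
        refine ⟨f.symm y, ?_, by simp⟩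
        simpa using hy)
    hab hposG hposH ΓA Γ ⟨RelIso.refl _, rfl⟩
    (by
      rintro α ⟨α', rfl⟩ γ ⟨γ', rfl⟩
      exact ⟨α'.trans γ', rfl⟩)
    (by
      rintro γ ⟨γ', rfl⟩ δ ⟨δ', rfl⟩
      exact ⟨γ'.trans δ'.symm, rfl⟩)
    (fun v => if h : 2 ≤ classSize G (twinClass G v) then (g₀ v).toEquiv
      else (Classical.choice ⟨(g₀ v).toEquiv⟩))
    (fun v hv => by
      simp only [hv, dif_pos]
      exact ⟨g₀ v, rfl⟩)
    (fun v hv c => by
      simp only [hv, dif_pos]
      have h1 := hg₀ v hv c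
      have h2 : (g₀ v).toEquiv c = g₀ v c := rfl
      rw [h2]
      by_cases h3 : twinClass G v = c <;> by_cases h4 : twinClass H (f v) = g₀ v c
      · rw [if_pos h3, if_pos h4] at h1 ⊢; exact h1
      · rw [if_pos h3, if_neg h4] at h1 ⊢; exact h1
      · rw [if_neg h3, if_pos h4] at h1 ⊢; exact h1
      · rw [if_neg h3, if_neg h4] at h1 ⊢; exact h1)
    hcard O (by
      rintro α ⟨α', rfl⟩ c hc
      exact hO α' c hc) s hs hfinlt
  exact iso_of_quotient_iso G H γ' hγ

omit [Fintype V] [Fintype W] in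
/-- hypomorphic graphs have hypomorphic complements -/
lemma deck_compl (G : SimpleGraph V) (H : SimpleGraph W) (f : V ≃ W)
    (hdeck : ∀ v : V, ∃ ψ : {x : V // x ≠ v} ≃ {y : W // y ≠ f v},
      ∀ x y, G.Adj x.1 y.1 ↔ H.Adj (ψ x).1 (ψ y).1) :
    ∀ v : V, ∃ ψ : {x : V // x ≠ v} ≃ {y : W // y ≠ f v},
      ∀ x y, Gᶜ.Adj x.1 y.1 ↔ Hᶜ.Adj (ψ x).1 (ψ y).1 := by
  intro v
  obtain ⟨ψ, hψ⟩ := hdeck v
  refine ⟨ψ, fun x y => ?_⟩
  rw [SimpleGraph.compl_adj, SimpleGraph.compl_adj, hψ]
  have : x.1 ≠ y.1 ↔ (ψ x).1 ≠ (ψ y).1 := by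
    rw [not_iff_not]
    constructor
    · intro h
      rw [Subtype.ext h]
    · intro h
      exact congrArg Subtype.val (ψ.injective (Subtype.ext h))
  rw [this]

/-- **Main theorem** -/
theorem isReconstructible_of_twinExcess (G : SimpleGraph V) (hn : 8 ≤ Fintype.card V)
    (hex : HasTwinExcess G ∨ HasTwinExcess Gᶜ) : IsReconstructible G := by
  intro W _ H f hcards
  have hdeck : ∀ v : V, ∃ ψ : {x : V // x ≠ v} ≃ {y : W // y ≠ f v},
      ∀ x y, G.Adj x.1 y.1 ↔ H.Adj (ψ x).1 (ψ y).1 := by
    intro v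
    obtain ⟨e⟩ := hcards v
    exact exists_equiv_of_card_iso G H v (f v) e
  rcases hex with hex | hex
  · obtain ⟨g, hg⟩ := recon_of_twinExcess G H hn f hdeck hex
    exact tcl_iso_of_iso G H g hg
  · obtain ⟨g, hg⟩ := recon_of_twinExcess Gᶜ Hᶜ hn f (deck_compl G H f hdeck) hex
    refine tcl_iso_of_iso G H g (fun x y => ?_)
    by_cases hxy : x = y
    · subst hxy
      constructor
      · intro h; exact absurd h (G.loopless.irrefl _)
      · intro h; exact absurd h (H.loopless.irrefl _)
    · have h1 := hg x y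
      rw [SimpleGraph.compl_adj, SimpleGraph.compl_adj] at h1
      have h2 : g x ≠ g y := fun h => hxy (g.injective h)
      by_contra hcon
      tauto

end Pool.Agent.Recon
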